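import Pool.Agent.Nevan.Main

/-!
# Logarithmic growth of the Nevanlinna characteristic on every hyperbolic leaf

The definitions (foliation with singularities, linearizable singularity, leaf, universal covering
of a leaf, positive `(1,1)`-form, Nevanlinna characteristic) are in `Pool/Agent/Nevan/Defs.lean`.
-/

open scoped Manifold ContDiff

namespace Pool.Agent.Results.MP_39ecfc_an.EveryLeaf

open Pool.Agent.Nevan

/-- Let `M` be a compact complex manifold, modelled on the finite-dimensional complex vector
space `E` (for instance `E = ℂ^k`), let `F` be a holomorphic foliation by curves of `M` all of whose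
singularities are linearizable, and let `Ω` be a continuous positive `(1,1)`-form on `M` (for
instance a Kähler form). There is a constant `c > 0` such that for every point `a` whose leaf is
hyperbolic, with universal covering `φ : 𝔻 → L`, `φ(0) = a`, one has
`T(r) ≥ c log (1 / (1 - r))` for all `r` in `(r₀, 1)`, for some `r₀ < 1`. -/
theorem result {E : Type*} [NormedAddCommGroup E] [NormedSpace ℂ E] [FiniteDimensional ℂ E]
    {M : Type*} [TopologicalSpace M] [T2Space M] [CompactSpace M] [ChartedSpace E M]
    [IsManifold 𝓘(ℂ, E) ω M] (F : Foliation E M)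
    (hlin : ∀ p ∈ F.sing, F.IsLinearizableAt p) (Ω : PositiveForm E M) :
    ∃ c : ℝ, 0 < c ∧ ∀ (a : M) (φ : ℂ → M), F.IsUniversalCovering a φ →
      ∃ r₀ : ℝ, 0 < r₀ ∧ r₀ < 1 ∧ ∀ r : ℝ, r₀ < r → r < 1 →
        c * Real.log (1 / (1 - r)) ≤ Ω.nevanlinna φ r :=
  nevanlinna_growth F hlin Ω

end Pool.Agent.Results.MP_39ecfc_an.EveryLeaf
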